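import Pool.Agent.H995R3.SN.HFails

/-!
# Strong measure zero sets which are not meager-additive

`SMZ X`: the set `X` of reals has strong measure zero. `nonSN`: least size of a set of reals which
is not `SMZ`; `dNum`: the dominating number `𝔡`.

If `non(SMZ) = 𝔡` then there are an `SMZ` set `Y` and a closed nowhere dense set `A` of reals such
that `Y + A` is not meager. So if every `SMZ` set is meager-additive then `non(SMZ) ≠ 𝔡`.
-/

set_option autoImplicit false

namespace Pool.Agent.Results.MP_4b0d2a_lc.NotDominating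

open Cardinal H995SN Pointwise

theorem result :
    (nonSN = dNum →
      ∃ Y A : Set ℝ, SMZ Y ∧ IsClosed A ∧ interior A = ∅ ∧ ¬ IsMeagre (Y + A)) ∧
    ((∀ X : Set ℝ, SMZ X → ∀ A : Set ℝ, IsMeagre A → IsMeagre (X + A)) → nonSN ≠ dNum) := by
  refine ⟨exists_smz_not_ma, fun hH hnd => ?_⟩
  obtain ⟨Y, A, hY, hA, hAi, hYA⟩ := exists_smz_not_ma hnd
  exact hYA (hH Y hY A (IsNowhereDense.isMeagre (hA.isNowhereDense_iff.2 hAi)))

end Pool.Agent.Results.MP_4b0d2a_lc.NotDominating
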